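import Pool.Agent.Run7.h51.USOmega

/-!
MP_6e86bf_an, Q1, positive answer with a universal constant. For every uniformly separated metric
space `M` with any base point, and real or complex scalars, De Blasi's measure satisfies
`ω(A) ≤ 20 wk(A)` for every bounded subset `A` of the Lipschitz-free space `F(M)`.
-/

set_option autoImplicit false

open Pool.Agent.Run7.h51.US

universe u v

namespace Pool.Agent.Results.MP_6e86bf_an.OmegaWk

/-- **MP_6e86bf_an, Q1 (positive).** -/
theorem result (𝕜 : Type u) [RCLike 𝕜] (M : Type v) [MetricSpace M] (o : M)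
    (hM : UniformlySeparated M) (A : Set (FreeSpace 𝕜 o)) (hA : Bornology.IsBounded A) :
    omegaM 𝕜 A ≤ 20 * wkM 𝕜 A :=
  omega_le o hM hA

end Pool.Agent.Results.MP_6e86bf_an.OmegaWk
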